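import Pool.Agent.Helper50.DI.PhiB

/-! DI-PHI (a): a highest weight element with `phi F = 0` vanishes on sums of two pure tensors. -/

namespace Pool.Agent.Helper77.DI

open MvPolynomial

namespace PhiA

open PhiB

variable {ι : Type} [Fintype ι] [DecidableEq ι]

/-- weight scaling in all columns -/
theorem eval_wt {F : MvPolynomial (ι → Fin 2) ℂ} {k : ℕ} {b : ι → ℕ} (hF : HW F k b)
    (c : ι → ℂ) (x : (ι → Fin 2) → ℂ) :
    eval (fun α => (∏ i, c i ^ (α i : ℕ)) * x α) F = (∏ i, c i ^ b i) * eval x F := by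
  rw [eval_eq', eval_eq', Finset.mul_sum]
  apply Finset.sum_congr rfl
  intro m hm
  have h1 : ∏ α, ((∏ i, c i ^ (α i : ℕ)) * x α) ^ m α
      = (∏ α : ι → Fin 2, (∏ i, c i ^ (α i : ℕ)) ^ m α) * ∏ α, x α ^ m α := by
    rw [← Finset.prod_mul_distrib]
    apply Finset.prod_congr rfl
    intro α _
    rw [mul_pow]
  have h2 : ∏ α : ι → Fin 2, (∏ i, c i ^ (α i : ℕ)) ^ m α = ∏ i, c i ^ b i := by
    calc ∏ α : ι → Fin 2, (∏ i, c i ^ (α i : ℕ)) ^ m α
        = ∏ α : ι → Fin 2, ∏ i, c i ^ (m α * (α i : ℕ)) := by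
          apply Finset.prod_congr rfl
          intro α _
          rw [← Finset.prod_pow]
          apply Finset.prod_congr rfl
          intro i _
          rw [← pow_mul, mul_comm]
      _ = ∏ i, ∏ α : ι → Fin 2, c i ^ (m α * (α i : ℕ)) := Finset.prod_comm
      _ = ∏ i, c i ^ (b i) := by
          apply Finset.prod_congr rfl
          intro i _
          rw [Finset.prod_pow_eq_pow_sum, b_eq hF hm i]
  rw [h1, h2]
  ring

/-- shears in the columns of `S` -/
def shearS (S : Finset ι) (τ : ι → ℂ) (w : ι → Fin 2 → ℂ) (j : ι) (a : Fin 2) : ℂ :=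
  if a = 1 then (if j ∈ S then w j 1 + τ j * w j 0 else w j 1) else w j 0

omit [Fintype ι] in
theorem shearS_empty (τ : ι → ℂ) (w : ι → Fin 2 → ℂ) : shearS ∅ τ w = w := by
  funext j a
  fin_cases a <;> simp [shearS]

omit [Fintype ι] in
theorem shear_shearS (S : Finset ι) (i : ι) (hi : i ∉ S) (τ : ι → ℂ) (w : ι → Fin 2 → ℂ) :
    shear i (τ i) (shearS S τ w) = shearS (insert i S) τ w := by
  funext j a
  by_cases hj : j = i
  · subst hj
    simp only [shear, Function.update_self, shearS, Finset.mem_insert_self, if_true, hi, if_false]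
    fin_cases a <;> simp
  · rw [shear, Function.update_of_ne hj]
    simp [shearS, hj]

theorem eval_shearS {F : MvPolynomial (ι → Fin 2) ℂ} {k : ℕ} {b : ι → ℕ} (hF : HW F k b)
    (τ : ι → ℂ) (u v : ι → Fin 2 → ℂ) (S : Finset ι) :
    eval (fun α => 1 * ∏ j, shearS S τ u j (α j) + 1 * ∏ j, shearS S τ v j (α j)) F
      = eval (fun α => 1 * ∏ j, u j (α j) + 1 * ∏ j, v j (α j)) F := by
  induction S using Finset.induction_on with
  | empty => rw [shearS_empty, shearS_empty]
  | insert i S hi ih =>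
    rw [← ih, ← eval_shear hF i (τ i) 1 1 (shearS S τ u) (shearS S τ v), shear_shearS S i hi,
      shear_shearS S i hi]

/-- the generic case -/
theorem eval_generic {F : MvPolynomial (ι → Fin 2) ℂ} {k : ℕ} {b : ι → ℕ} (hF : HW F k b)
    (h0 : phi F = 0) (u v : ι → Fin 2 → ℂ) (hu : ∀ i, u i 0 ≠ 0) (hv : ∀ i, v i 0 ≠ 0)
    (hd : ∀ i, u i 1 * v i 0 - u i 0 * v i 1 ≠ 0) :
    eval (fun α : ι → Fin 2 => ∏ i, u i (α i) + ∏ i, v i (α i)) F = 0 := by
  have hd' : ∀ i, u i 1 + -(v i 1 / v i 0) * u i 0 ≠ 0 := by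
    intro i h
    apply hd i
    have h1 := hv i
    field_simp at h
    linear_combination h
  have h1 : eval (fun α : ι → Fin 2 => ∏ i, u i (α i) + ∏ i, v i (α i)) F
      = eval (fun α => 1 * ∏ j, shearS Finset.univ (fun i => -(v i 1 / v i 0)) u j (α j)
          + 1 * ∏ j, shearS Finset.univ (fun i => -(v i 1 / v i 0)) v j (α j)) F := by
    rw [eval_shearS hF]
    simp only [one_mul]
  have hc : ∀ i, u i 0 / (u i 1 + -(v i 1 / v i 0) * u i 0) ≠ 0 := fun i =>
    div_ne_zero (hu i) (hd' i)
  have h2 := eval_wt hF (fun i => u i 0 / (u i 1 + -(v i 1 / v i 0) * u i 0))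
    (fun α => 1 * ∏ j, shearS Finset.univ (fun i => -(v i 1 / v i 0)) u j (α j)
          + 1 * ∏ j, shearS Finset.univ (fun i => -(v i 1 / v i 0)) v j (α j))
  have hQ : (∏ i, v i 0) ≠ 0 := Finset.prod_ne_zero_iff.mpr fun i _ => hv i
  have h3 : (fun α : ι → Fin 2 =>
      (∏ i, (u i 0 / (u i 1 + -(v i 1 / v i 0) * u i 0)) ^ (α i : ℕ)) *
      (1 * ∏ j, shearS Finset.univ (fun i => -(v i 1 / v i 0)) u j (α j)
          + 1 * ∏ j, shearS Finset.univ (fun i => -(v i 1 / v i 0)) v j (α j)))
      = fun α => (∏ i, v i 0) * pt 1 ((∏ i, u i 0) / ∏ i, v i 0) α := by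
    funext α
    rw [one_mul, one_mul, mul_add, ← Finset.prod_mul_distrib, ← Finset.prod_mul_distrib]
    have h4 : ∏ i, (u i 0 / (u i 1 + -(v i 1 / v i 0) * u i 0)) ^ (α i : ℕ) *
        shearS Finset.univ (fun i => -(v i 1 / v i 0)) u i (α i) = ∏ i, u i 0 := by
      apply Finset.prod_congr rfl
      intro i _
      simp only [shearS, Finset.mem_univ, if_true]
      have h5 : α i = 0 ∨ α i = 1 := by omega
      rcases h5 with h | h
      · rw [h]; simp
      · rw [h]
        simp only [if_true, Fin.val_one, pow_one]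
        rw [div_mul_cancel₀ _ (hd' i)]
    have h6 : ∏ i, (u i 0 / (u i 1 + -(v i 1 / v i 0) * u i 0)) ^ (α i : ℕ) *
        shearS Finset.univ (fun i => -(v i 1 / v i 0)) v i (α i)
        = if α = 0 then ∏ i, v i 0 else 0 := by
      split_ifs with h
      · subst h
        apply Finset.prod_congr rfl
        intro i _
        simp [shearS]
      · obtain ⟨i, hi⟩ := Function.ne_iff.mp h
        apply Finset.prod_eq_zero (Finset.mem_univ i)
        have h5 : α i = 1 := by
          simp only [Pi.zero_apply] at hi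
          omega
        rw [h5]
        simp only [shearS, Finset.mem_univ, if_true]
        have := hv i
        field_simp
        ring
    rw [h4, h6, pt]
    split_ifs
    · field_simp
      ring
    · field_simp
      ring
  rw [h3, eval_smul hF, ← phi_eval, h0, ← h1] at h2
  simp only [Polynomial.eval_zero, mul_zero] at h2
  rcases mul_eq_zero.mp h2.symm with h | h
  · exfalso
    exact Finset.prod_ne_zero_iff.mpr (fun i _ => pow_ne_zero _ (hc i)) h
  · exact h

end PhiA

open PhiA in
/-- DI-PHI (a). -/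
theorem eval_eq_zero_of_phi {ι : Type} [Fintype ι] [DecidableEq ι]
    {F : MvPolynomial (ι → Fin 2) ℂ} {k : ℕ} {b : ι → ℕ} (hF : HW F k b) (h0 : phi F = 0)
    (u v : ι → Fin 2 → ℂ) :
    eval (fun α : ι → Fin 2 => ∏ i, u i (α i) + ∏ i, v i (α i)) F = 0 := by
  classical
  obtain ⟨q, hq⟩ : ∃ q : Fin 2 → ℂ, q = fun a => if a = 0 then 1 else 0 := ⟨_, rfl⟩
  obtain ⟨E, hE⟩ : ∃ E : Polynomial ℂ, E = aeval (fun α : ι → Fin 2 =>
      ∏ i, (Polynomial.C (u i (α i)) + Polynomial.X) +
      ∏ i, (Polynomial.C (v i (α i)) + Polynomial.X * Polynomial.C (q (α i)))) F := ⟨_, rfl⟩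
  have hEz : ∀ z : ℂ, E.eval z = eval (fun α : ι → Fin 2 => ∏ i, (u i (α i) + z) +
      ∏ i, (v i (α i) + z * q (α i))) F := by
    intro z
    have h : ((Polynomial.aeval z).comp (aeval (fun α : ι → Fin 2 =>
        ∏ i, (Polynomial.C (u i (α i)) + Polynomial.X) +
        ∏ i, (Polynomial.C (v i (α i)) + Polynomial.X * Polynomial.C (q (α i)))) :
          MvPolynomial (ι → Fin 2) ℂ →ₐ[ℂ] Polynomial ℂ) : MvPolynomial (ι → Fin 2) ℂ →ₐ[ℂ] ℂ)
        = aeval (fun α : ι → Fin 2 => ∏ i, (u i (α i) + z) + ∏ i, (v i (α i) + z * q (α i))) := by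
      apply MvPolynomial.algHom_ext
      intro α
      simp only [AlgHom.comp_apply, aeval_X, map_add, map_prod, map_mul, Polynomial.aeval_C,
        Polynomial.aeval_X, Algebra.algebraMap_self, RingHom.id_apply]
    have h2 := congrArg (fun f => f F) h
    rw [hE]
    simpa [AlgHom.comp_apply, Polynomial.aeval_def, aeval_eq_eval] using h2
  obtain ⟨G, hG⟩ : ∃ G : Polynomial ℂ, G = ∏ i, ((Polynomial.C (u i 0) + Polynomial.X) *
      (Polynomial.C (v i 0) + Polynomial.X) *
      ((Polynomial.C (u i 1) + Polynomial.X) * (Polynomial.C (v i 0) + Polynomial.X)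
        - (Polynomial.C (u i 0) + Polynomial.X) * Polynomial.C (v i 1))) := ⟨_, rfl⟩
  have hG0 : G ≠ 0 := by
    rw [hG, Finset.prod_ne_zero_iff]
    intro i _
    have hX : ∀ c : ℂ, (Polynomial.C c + Polynomial.X : Polynomial ℂ) ≠ 0 := fun c =>
      by rw [add_comm]; exact Polynomial.X_add_C_ne_zero c
    refine mul_ne_zero (mul_ne_zero (hX _) (hX _)) ?_
    intro h
    have h1 := congrArg (fun p => Polynomial.coeff p 2) h
    have h2 : ((Polynomial.C (u i 1) + Polynomial.X) * (Polynomial.C (v i 0) + Polynomial.X)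
        - (Polynomial.C (u i 0) + Polynomial.X) * Polynomial.C (v i 1) : Polynomial ℂ)
        = Polynomial.X ^ 2 + Polynomial.C (u i 1 + v i 0 - v i 1) * Polynomial.X
          + Polynomial.C (u i 1 * v i 0 - u i 0 * v i 1) := by
      simp only [Polynomial.C_add, Polynomial.C_sub, Polynomial.C_mul]
      ring
    rw [h2] at h1
    simp at h1
  have hEG : E * G = 0 := by
    apply Polynomial.funext
    intro z
    rw [Polynomial.eval_mul, Polynomial.eval_zero]
    by_cases hz : G.eval z = 0
    · rw [hz, mul_zero]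
    · have h3 : E.eval z = 0 := by
        rw [hEz]
        rw [hG, Polynomial.eval_prod, ← ne_eq, Finset.prod_ne_zero_iff] at hz
        apply eval_generic hF h0 (fun i a => u i a + z) (fun i a => v i a + z * q a)
        · intro i h
          apply hz i (Finset.mem_univ i)
          simp only [Polynomial.eval_mul, Polynomial.eval_add, Polynomial.eval_C,
            Polynomial.eval_X]
          rw [h]; ring
        · intro i h
          apply hz i (Finset.mem_univ i)
          simp only [hq, if_true, mul_one] at h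
          simp only [Polynomial.eval_mul, Polynomial.eval_add, Polynomial.eval_C,
            Polynomial.eval_X]
          rw [h]; ring
        · intro i h
          apply hz i (Finset.mem_univ i)
          simp only [hq, if_true, mul_one, one_ne_zero, if_false, mul_zero, add_zero] at h
          simp only [Polynomial.eval_mul, Polynomial.eval_add, Polynomial.eval_sub,
            Polynomial.eval_C, Polynomial.eval_X]
          rw [h]; ring
      rw [h3, zero_mul]
  have hE0 : E = 0 := (mul_eq_zero.mp hEG).resolve_right hG0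
  have h4 := hEz 0
  rw [hE0, Polynomial.eval_zero] at h4
  simp only [add_zero, zero_mul] at h4
  exact h4.symm

end Pool.Agent.Helper77.DI
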